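import Pool.Agent.Helper16.LGG.G22

/-!
MP_365f4a_gt, Q1: large genus asymptotics of the Masur-Veech volumes of the odd strata of quadratic
differentials, uniformly in the stratum (all zeros of odd order, a bounded number of poles).

All definitions are in `Pool/Agent/Helper71/MVN/Def.lean`.
-/

namespace Pool.Agent.Results.MP_365f4a_gt.LargeGenusVolume

open Finset Filter Topology Pool.Agent.Helper71.MVN

theorem result :
    (∀ (g n p : ℕ) (k : Fin n → ℕ), (∀ i, Odd (k i)) → ∑ i, k i + 4 = 4 * g + p → 1 ≤ n + p →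
      Tendsto (fun N : ℕ => volN g k p N) atTop (𝓝 (Vol g k p))) ∧
    (∀ (M : ℕ) (δ : ℝ), 0 < δ → ∃ g₀ : ℕ, ∀ g ≥ g₀, ∀ (n p : ℕ) (k : Fin n → ℕ), p ≤ M →
      (∀ i, Odd (k i)) → ∑ i, k i + 4 = 4 * g + p →
      |Vol g k p / (4 / Real.pi * 2 ^ p * ∏ i, ((2 : ℝ) ^ (k i + 2) / ((k i : ℝ) + 2))) - 1| ≤ δ ∧
      |eps g k p - (2 ^ p - 1)| ≤ δ) :=
  final blockB blockN

end Pool.Agent.Results.MP_365f4a_gt.LargeGenusVolume
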